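import Mathlib

/-!
# A non-diagonalizable map preserving the A-eigenspaces and reversing the A*-flag of a tridiagonal pair

Question Q2 asks whether every admissible map `S` (with `S V_i = V_i` and
`S (V*_0 + … + V*_i) = V*_d + … + V*_(d-i)` for all `i`) of a tridiagonal pair is diagonalizable.  The answer is
no, over every field of characteristic zero (algebraically closed or not): on `K ^ 4` let

`A = diag(0, 1, 1, 2)`, `A* = !![0, 2, -3, 0; 1, 1, -2, 1; -2, 0, 1, -2; 0, 2, -3, 0]`,
`S (x₀, x₁, x₂, x₃) = (x₀, - x₁ + x₂, - x₂, x₃)`.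

`A`, `A*` is a tridiagonal pair of diameter two and shape `(1, 2, 1)`, with the eigenvalues `0, 1, 2` of `A` and
`-3, 0, 5` of `A*` in standard orderings, `S` is admissible, and `S` acts on `V_1` by a Jordan block.
-/

set_option autoImplicit false

namespace Pool.Agent.Results.MP_6ebba1_al.NotDiagonalizable

section defs

variable {K : Type*} [Field K] {V : Type*} [AddCommGroup V] [Module K V]

/-- `θ 0, …, θ d` are the eigenvalues of `A`, mutually distinct, `A` is diagonalizable, and for the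
eigenspaces `V_i` of `A` for `θ i` one has `B V_i ⊆ V_{i-1} + V_i + V_{i+1}`, `V_{-1} = V_{d+1} = 0`. -/
structure Ordering (A B : Module.End K V) (d : ℕ) (θ : Fin (d + 1) → K) : Prop where
  injective : Function.Injective θ
  eigenvalue : ∀ i, A.HasEigenvalue (θ i)
  diagonalizable : (⨆ i, A.eigenspace (θ i)) = ⊤
  tridiagonal : ∀ i, (A.eigenspace (θ i)).map B ≤
    ⨆ (j : Fin (d + 1)) (_ : (j : ℕ) ≤ i + 1 ∧ (i : ℕ) ≤ j + 1), A.eigenspace (θ j)

/-- `A`, `B` is a tridiagonal pair of diameter `d` on the nonzero finite-dimensional space `V`, and `θ`, `θ'`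
are orderings of the eigenvalues (of the eigenspaces) of `A` and of `B` as in the definition. -/
structure TDPair (A B : Module.End K V) (d : ℕ) (θ θ' : Fin (d + 1) → K) : Prop where
  finite : FiniteDimensional K V
  nontrivial : Nontrivial V
  ordA : Ordering A B d θ
  ordB : Ordering B A d θ'
  irreducible : ∀ W : Submodule K V, (∀ w ∈ W, A w ∈ W) → (∀ w ∈ W, B w ∈ W) → W = ⊥ ∨ W = ⊤

/-- `S` is admissible: `S V_i = V_i` and `S (V*_0 + … + V*_i) = V*_d + … + V*_(d-i)` for all `i`. -/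
def Admissible (A B : Module.End K V) (d : ℕ) (θ θ' : Fin (d + 1) → K) (S : Module.End K V) : Prop :=
  ∀ i : Fin (d + 1), (A.eigenspace (θ i)).map S = A.eigenspace (θ i) ∧
    (⨆ (j : Fin (d + 1)) (_ : (j : ℕ) ≤ i), B.eigenspace (θ' j)).map S =
      ⨆ (j : Fin (d + 1)) (_ : d ≤ (i : ℕ) + j), B.eigenspace (θ' j)

/-- `S` is diagonalizable: `V` is the sum of its eigenspaces. -/
def Diagonalizable (S : Module.End K V) : Prop := (⨆ μ : K, S.eigenspace μ) = ⊤

end defs

set_option linter.unusedSectionVars false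

variable (K : Type*) [Field K]

/-- `A` -/
def A : Module.End K (Fin 4 → K) where
  toFun x := ![0, x 1, x 2, 2 * x 3]
  map_add' x y := by
    funext i
    fin_cases i <;> simp <;> ring
  map_smul' c x := by
    funext i
    fin_cases i <;> simp <;> ring

/-- `A*` -/
def B : Module.End K (Fin 4 → K) where
  toFun x := ![2 * x 1 - 3 * x 2, x 0 + x 1 - 2 * x 2 + x 3, -2 * x 0 + x 2 - 2 * x 3,
    2 * x 1 - 3 * x 2]
  map_add' x y := by
    funext i
    fin_cases i <;> simp <;> ring
  map_smul' c x := by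
    funext i
    fin_cases i <;> simp <;> ring

/-- `S` -/
def S : Module.End K (Fin 4 → K) where
  toFun x := ![x 0, -x 1 + x 2, -x 2, x 3]
  map_add' x y := by
    funext i
    fin_cases i <;> simp <;> ring
  map_smul' c x := by
    funext i
    fin_cases i <;> simp <;> ring

/-- the eigenvalues of `A` -/
def th : Fin 3 → K := ![0, 1, 2]
/-- the eigenvalues of `A*` -/
def th' : Fin 3 → K := ![-3, 0, 5]

variable {K}

theorem ext4 {x y : Fin 4 → K} : x = y ↔ x 0 = y 0 ∧ x 1 = y 1 ∧ x 2 = y 2 ∧ x 3 = y 3 := by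
  constructor
  · rintro rfl; exact ⟨rfl, rfl, rfl, rfl⟩
  · rintro ⟨h0, h1, h2, h3⟩
    funext i
    fin_cases i
    · exact h0
    · exact h1
    · exact h2
    · exact h3

theorem A_0 (x : Fin 4 → K) : A K x 0 = 0 := rfl
theorem A_1 (x : Fin 4 → K) : A K x 1 = x 1 := rfl
theorem A_2 (x : Fin 4 → K) : A K x 2 = x 2 := rfl
theorem A_3 (x : Fin 4 → K) : A K x 3 = 2 * x 3 := rfl
theorem B_0 (x : Fin 4 → K) : B K x 0 = 2 * x 1 - 3 * x 2 := rfl
theorem B_1 (x : Fin 4 → K) : B K x 1 = x 0 + x 1 - 2 * x 2 + x 3 := rfl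
theorem B_2 (x : Fin 4 → K) : B K x 2 = -2 * x 0 + x 2 - 2 * x 3 := rfl
theorem B_3 (x : Fin 4 → K) : B K x 3 = 2 * x 1 - 3 * x 2 := rfl
theorem S_0 (x : Fin 4 → K) : S K x 0 = x 0 := rfl
theorem S_1 (x : Fin 4 → K) : S K x 1 = -x 1 + x 2 := rfl
theorem S_2 (x : Fin 4 → K) : S K x 2 = -x 2 := rfl
theorem S_3 (x : Fin 4 → K) : S K x 3 = x 3 := rfl

variable [CharZero K]

/-! ### The eigenspaces -/

theorem mem_A0 (x : Fin 4 → K) : x ∈ (A K).eigenspace (th K 0) ↔ x 1 = 0 ∧ x 2 = 0 ∧ x 3 = 0 := by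
  rw [Module.End.mem_eigenspace_iff, ext4]
  simp [A_0, A_1, A_2, A_3, th]

theorem mem_A1 (x : Fin 4 → K) : x ∈ (A K).eigenspace (th K 1) ↔ x 0 = 0 ∧ x 3 = 0 := by
  rw [Module.End.mem_eigenspace_iff, ext4]
  simp only [A_0, A_1, A_2, A_3, th, Matrix.cons_val_one, Matrix.cons_val_zero, one_smul]
  constructor
  · rintro ⟨h0, -, -, h3⟩
    exact ⟨h0.symm, by linear_combination h3⟩
  · rintro ⟨h0, h3⟩
    exact ⟨h0.symm, by simp, by simp, by simp [h3]⟩

theorem mem_A2 (x : Fin 4 → K) : x ∈ (A K).eigenspace (th K 2) ↔ x 0 = 0 ∧ x 1 = 0 ∧ x 2 = 0 := by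
  rw [Module.End.mem_eigenspace_iff, ext4]
  have h2 : th K 2 = 2 := rfl
  rw [h2]
  simp only [A_0, A_1, A_2, A_3, Pi.smul_apply, smul_eq_mul]
  constructor
  · rintro ⟨h0, h1, h2, -⟩
    refine ⟨?_, ?_, ?_⟩
    · have : (2 : K) * x 0 = 0 := h0.symm
      simpa using this
    · linear_combination -h1
    · linear_combination -h2
  · rintro ⟨h0, h1, h2⟩
    rw [h0, h1, h2]
    simp

theorem mem_B0 (x : Fin 4 → K) :
    x ∈ (B K).eigenspace (th' K 0) ↔ x 1 = 0 ∧ x 2 = x 0 ∧ x 3 = x 0 := by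
  rw [Module.End.mem_eigenspace_iff, ext4]
  have h2 : th' K 0 = -3 := rfl
  rw [h2]
  simp only [B_0, B_1, B_2, B_3, Pi.smul_apply, smul_eq_mul]
  constructor
  · rintro ⟨e0, e1, e2, e3⟩
    have h3 : x 3 = x 0 := by
      have : (3 : K) * (x 3 - x 0) = 0 := by linear_combination e3 - e0
      rcases mul_eq_zero.1 this with h | h
      · norm_num at h
      · linear_combination h
    have h12 : x 2 = x 0 := by
      rw [h3] at e2
      have : (4 : K) * (x 2 - x 0) = 0 := by linear_combination e2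
      rcases mul_eq_zero.1 this with h | h
      · norm_num at h
      · linear_combination h
    refine ⟨?_, h12, h3⟩
    rw [h12] at e0
    have : (2 : K) * x 1 = 0 := by linear_combination e0
    simpa using this
  · rintro ⟨h1, h2, h3⟩
    rw [h1, h2, h3]
    refine ⟨?_, ?_, ?_, ?_⟩ <;> ring

theorem mem_B1 (x : Fin 4 → K) :
    x ∈ (B K).eigenspace (th' K 1) ↔ 2 * x 1 = 3 * x 2 ∧ 2 * x 0 + 2 * x 3 = x 2 := by
  rw [Module.End.mem_eigenspace_iff, ext4]
  have h2 : th' K 1 = 0 := rfl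
  rw [h2]
  simp only [B_0, B_1, B_2, B_3, Pi.smul_apply, smul_eq_mul, zero_mul]
  constructor
  · rintro ⟨e0, e1, e2, e3⟩
    exact ⟨by linear_combination e0, by linear_combination -e2⟩
  · rintro ⟨h1, h2⟩
    refine ⟨by linear_combination h1, ?_, by linear_combination -h2, by linear_combination h1⟩
    have : (2 : K) * (x 0 + x 1 - 2 * x 2 + x 3) = 0 := by linear_combination h1 + h2
    simpa using this

theorem mem_B2 (x : Fin 4 → K) :
    x ∈ (B K).eigenspace (th' K 2) ↔ x 1 = x 0 ∧ x 2 = -x 0 ∧ x 3 = x 0 := by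
  rw [Module.End.mem_eigenspace_iff, ext4]
  have h2 : th' K 2 = 5 := rfl
  rw [h2]
  simp only [B_0, B_1, B_2, B_3, Pi.smul_apply, smul_eq_mul]
  constructor
  · rintro ⟨e0, e1, e2, e3⟩
    have h3 : x 3 = x 0 := by
      have : (5 : K) * (x 3 - x 0) = 0 := by linear_combination e0 - e3
      rcases mul_eq_zero.1 this with h | h
      · norm_num at h
      · linear_combination h
    have h12 : x 2 = -x 0 := by
      rw [h3] at e2
      have : (4 : K) * (x 2 + x 0) = 0 := by linear_combination -e2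
      rcases mul_eq_zero.1 this with h | h
      · norm_num at h
      · linear_combination h
    refine ⟨?_, h12, h3⟩
    rw [h12] at e0
    have : (2 : K) * (x 1 - x 0) = 0 := by linear_combination e0
    rcases mul_eq_zero.1 this with h | h
    · norm_num at h
    · linear_combination h
  · rintro ⟨h1, h2, h3⟩
    rw [h1, h2, h3]
    refine ⟨?_, ?_, ?_, ?_⟩ <;> ring

/-! ### Sums of eigenspaces -/

theorem top_A (x : Fin 4 → K) : ∃ a ∈ (A K).eigenspace (th K 0), ∃ b ∈ (A K).eigenspace (th K 1),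
    ∃ c ∈ (A K).eigenspace (th K 2), x = a + b + c := by
  refine ⟨![x 0, 0, 0, 0], (mem_A0 _).2 (by simp), ![0, x 1, x 2, 0], (mem_A1 _).2 (by simp),
    ![0, 0, 0, x 3], (mem_A2 _).2 (by simp), ?_⟩
  rw [ext4]
  simp

/-- the linear form that vanishes on `V*_0 + V*_1` -/
def h (x : Fin 4 → K) : K := x 0 + x 1 - 2 * x 2 + x 3
/-- the linear form that vanishes on `V*_1 + V*_2` -/
def h' (x : Fin 4 → K) : K := x 0 - x 1 + x 2 + x 3

theorem top_B (x : Fin 4 → K) : ∃ a ∈ (B K).eigenspace (th' K 0), ∃ b ∈ (B K).eigenspace (th' K 1),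
    ∃ c ∈ (B K).eigenspace (th' K 2), x = a + b + c ∧ (h x = 0 → c = 0) ∧ (h' x = 0 → a = 0) := by
  have h3 : (3 : K) ≠ 0 := by norm_num
  have h5 : (5 : K) ≠ 0 := by norm_num
  refine ⟨![h' x / 3, 0, h' x / 3, h' x / 3], (mem_B0 _).2 (by simp),
    ![x 0 - h' x / 3 - h x / 5, x 1 - h x / 5, x 2 - h' x / 3 + h x / 5, x 3 - h' x / 3 - h x / 5],
    (mem_B1 _).2 ?_, ![h x / 5, h x / 5, -(h x / 5), h x / 5], (mem_B2 _).2 (by simp), ?_, ?_, ?_⟩
  · unfold h h'
    constructor
    · simp
      field_simp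
      ring
    · simp
      field_simp
      ring
  · rw [ext4]
    refine ⟨?_, ?_, ?_, ?_⟩ <;> simp <;> ring
  · intro h0
    rw [h0]
    funext i
    fin_cases i <;> simp
  · intro h0
    rw [h0]
    funext i
    fin_cases i <;> simp

theorem iSup_A : (⨆ i, (A K).eigenspace (th K i)) = ⊤ := by
  rw [eq_top_iff]
  intro x _
  obtain ⟨a, ha, b, hb, c, hc, rfl⟩ := top_A x
  exact Submodule.add_mem _ (Submodule.add_mem _
    (Submodule.mem_iSup_of_mem (0 : Fin 3) ha) (Submodule.mem_iSup_of_mem (1 : Fin 3) hb))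
    (Submodule.mem_iSup_of_mem (2 : Fin 3) hc)

theorem iSup_B : (⨆ i, (B K).eigenspace (th' K i)) = ⊤ := by
  rw [eq_top_iff]
  intro x _
  obtain ⟨a, ha, b, hb, c, hc, rfl, -, -⟩ := top_B x
  exact Submodule.add_mem _ (Submodule.add_mem _
    (Submodule.mem_iSup_of_mem (0 : Fin 3) ha) (Submodule.mem_iSup_of_mem (1 : Fin 3) hb))
    (Submodule.mem_iSup_of_mem (2 : Fin 3) hc)

/-- membership in a sum over some indices -/
theorem mem_of {V : Type*} [AddCommGroup V] [Module K V] {P : Fin 3 → Prop}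
    {E : Fin 3 → Submodule K V} {x : V} (j : Fin 3) (hj : P j) (hx : x ∈ E j) :
    x ∈ ⨆ (j : Fin 3) (_ : P j), E j :=
  Submodule.mem_iSup_of_mem j (Submodule.mem_iSup_of_mem hj hx)

theorem eig {A : Module.End K (Fin 4 → K)} {μ : K} (x : Fin 4 → K) (hx : x ∈ A.eigenspace μ)
    (i : Fin 4) (hi : x i ≠ 0) : A.HasEigenvalue μ := by
  rw [Module.End.hasEigenvalue_iff]
  intro h0
  rw [h0, Submodule.mem_bot] at hx
  exact hi (by rw [hx]; rfl)

theorem fin3 (i : Fin 3) : i = 0 ∨ i = 1 ∨ i = 2 := by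
  have : ∀ k : Fin 3, k = 0 ∨ k = 1 ∨ k = 2 := by decide
  exact this i

theorem ordA : Ordering (A K) (B K) 2 (th K) where
  injective := by
    intro i j hij
    fin_cases i <;> fin_cases j <;> simp [th] at hij ⊢
  eigenvalue := by
    intro i
    rcases fin3 i with rfl | rfl | rfl
    · exact eig ![1, 0, 0, 0] ((mem_A0 _).2 (by simp)) 0 (by simp)
    · exact eig ![0, 1, 0, 0] ((mem_A1 _).2 (by simp)) 1 (by simp)
    · exact eig ![0, 0, 0, 1] ((mem_A2 _).2 (by simp)) 3 (by simp)
  diagonalizable := iSup_A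
  tridiagonal := by
    rintro i _ ⟨x, hx, rfl⟩
    rcases fin3 i with rfl | rfl | rfl
    · refine mem_of 1 (by decide) ((mem_A1 _).2 ?_)
      obtain ⟨h1, h2, h3⟩ := (mem_A0 x).1 hx
      rw [B_0, B_3, h1, h2]
      simp
    · obtain ⟨a, ha, b, hb, c, hc, e⟩ := top_A (B K x)
      rw [e]
      exact Submodule.add_mem _ (Submodule.add_mem _ (mem_of 0 (by decide) ha)
        (mem_of 1 (by decide) hb)) (mem_of 2 (by decide) hc)
    · refine mem_of 1 (by decide) ((mem_A1 _).2 ?_)
      obtain ⟨h1, h2, h3⟩ := (mem_A2 x).1 hx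
      rw [B_0, B_3, h2, h3]
      simp

theorem ordB : Ordering (B K) (A K) 2 (th' K) where
  injective := by
    intro i j hij
    have h1 : (-3 : K) ≠ 0 := by norm_num
    have h2 : (-3 : K) ≠ 5 := by norm_num
    have h3 : (5 : K) ≠ 0 := by norm_num
    have h4 : (5 : K) ≠ -3 := by norm_num
    have e0 : th' K 0 = -3 := rfl
    have e1 : th' K 1 = 0 := rfl
    have e2 : th' K 2 = 5 := rfl
    rcases fin3 i with rfl | rfl | rfl <;> rcases fin3 j with rfl | rfl | rfl <;>
      simp only [e0, e1, e2] at hij <;>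
      first | rfl | exact absurd hij h1 | exact absurd hij h2 | exact absurd hij h3 |
        exact absurd hij h4 | exact absurd hij.symm h1 | exact absurd hij.symm h3
  eigenvalue := by
    intro i
    rcases fin3 i with rfl | rfl | rfl
    · exact eig ![1, 0, 1, 1] ((mem_B0 _).2 (by simp)) 0 (by simp)
    · exact eig ![1, 0, 0, -1] ((mem_B1 _).2 (by simp)) 0 (by simp)
    · exact eig ![1, 1, -1, 1] ((mem_B2 _).2 (by simp)) 0 (by simp)
  diagonalizable := iSup_B
  tridiagonal := by
    rintro i _ ⟨x, hx, rfl⟩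
    obtain ⟨a, ha, b, hb, c, hc, e, h1, h2⟩ := top_B (A K x)
    rcases fin3 i with rfl | rfl | rfl
    · obtain ⟨g1, g2, g3⟩ := (mem_B0 x).1 hx
      have hc0 := h1 (by unfold h; rw [A_0, A_1, A_2, A_3, g1, g2, g3]; ring)
      rw [e, hc0, add_zero]
      exact Submodule.add_mem _ (mem_of 0 (by decide) ha) (mem_of 1 (by decide) hb)
    · rw [e]
      exact Submodule.add_mem _ (Submodule.add_mem _ (mem_of 0 (by decide) ha)
        (mem_of 1 (by decide) hb)) (mem_of 2 (by decide) hc)
    · obtain ⟨g1, g2, g3⟩ := (mem_B2 x).1 hx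
      have ha0 := h2 (by unfold h'; rw [A_0, A_1, A_2, A_3, g1, g2, g3]; ring)
      rw [e, ha0, zero_add]
      exact Submodule.add_mem _ (mem_of 1 (by decide) hb) (mem_of 2 (by decide) hc)

/-! ### Irreducibility -/

/-- the standard basis vectors -/
theorem irred (W : Submodule K (Fin 4 → K)) (hA : ∀ w ∈ W, A K w ∈ W) (hB : ∀ w ∈ W, B K w ∈ W) :
    W = ⊥ ∨ W = ⊤ := by
  have h2 : (2 : K) ≠ 0 := by norm_num
  -- the components
  have c0 : ∀ x ∈ W, (![x 0, 0, 0, 0] : Fin 4 → K) ∈ W := by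
    intro x hx
    have h1 := W.smul_mem (2⁻¹ : K) (W.add_mem (W.sub_mem (hA _ (hA _ hx)) (W.smul_mem 3 (hA _ hx)))
      (W.smul_mem 2 hx))
    convert h1 using 1
    rw [ext4]
    simp [A_0, A_1, A_2, A_3]
    refine ⟨?_, ?_, ?_⟩ <;> ring
  have c3 : ∀ x ∈ W, (![0, 0, 0, x 3] : Fin 4 → K) ∈ W := by
    intro x hx
    have h1 := W.smul_mem (2⁻¹ : K) (W.sub_mem (hA _ (hA _ hx)) (hA _ hx))
    convert h1 using 1
    rw [ext4]
    simp [A_0, A_1, A_2, A_3]
    ring
  have c12 : ∀ x ∈ W, (![0, x 1, x 2, 0] : Fin 4 → K) ∈ W := by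
    intro x hx
    have h1 := W.sub_mem (W.sub_mem hx (c0 x hx)) (c3 x hx)
    convert h1 using 1
    rw [ext4]
    refine ⟨?_, ?_, ?_, ?_⟩
    · show (0 : K) = x 0 - x 0 - 0
      ring
    · show x 1 = x 1 - 0 - 0
      ring
    · show x 2 = x 2 - 0 - 0
      ring
    · show (0 : K) = x 3 - 0 - x 3
      ring
  have scale : ∀ (v : Fin 4 → K) (c : K), c ≠ 0 → c • v ∈ W → v ∈ W := fun v c hc h =>
    (W.smul_mem_iff hc).1 h
  -- from the first basis vector
  have key : (![1, 0, 0, 0] : Fin 4 → K) ∈ W → W = ⊤ := by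
    intro e0
    have p1 := hB _ e0
    have p1' : (![0, 1, -2, 0] : Fin 4 → K) ∈ W := by
      convert p1 using 1
      rw [ext4]
      simp [B_0, B_1, B_2, B_3]
    have p2 := hB _ p1'
    have e3 : (![0, 0, 0, 1] : Fin 4 → K) ∈ W := by
      refine scale _ 8 (by norm_num) ?_
      convert c3 _ p2 using 1
      rw [ext4]
      simp [B_3]
      norm_num
    have p3 : (![0, 5, -2, 0] : Fin 4 → K) ∈ W := by
      convert c12 _ p2 using 1
      rw [ext4]
      simp [B_1, B_2]
      norm_num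
    have e1 : (![0, 1, 0, 0] : Fin 4 → K) ∈ W := by
      refine scale _ 4 (by norm_num) ?_
      convert W.sub_mem p3 p1' using 1
      rw [ext4]
      simp
      norm_num
    have e2 : (![0, 0, 1, 0] : Fin 4 → K) ∈ W := by
      refine scale _ (-2) (by norm_num) ?_
      convert W.sub_mem p1' e1 using 1
      rw [ext4]
      simp
    rw [eq_top_iff]
    intro x _
    have := W.add_mem (W.add_mem (W.add_mem (W.smul_mem (x 0) e0) (W.smul_mem (x 1) e1))
      (W.smul_mem (x 2) e2)) (W.smul_mem (x 3) e3)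
    convert this using 1
    rw [ext4]
    simp
  have key0 : ∀ x ∈ W, x 0 ≠ 0 → W = ⊤ := by
    intro x hx h0
    refine key (scale _ (x 0) h0 ?_)
    convert c0 x hx using 1
    rw [ext4]
    simp
  have key12 : ∀ x ∈ W, 2 * x 1 - 3 * x 2 ≠ 0 → W = ⊤ := by
    intro x hx h0
    exact key0 _ (hB _ (c12 x hx)) (by simpa [B_0] using h0)
  have key3 : ∀ x ∈ W, x 3 ≠ 0 → W = ⊤ := by
    intro x hx h0
    have h1 := hB _ (c3 x hx)
    refine key12 _ h1 ?_
    simp only [B_1, B_2]
    simp
    intro h4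
    apply h0
    have : (8 : K) * x 3 = 0 := by linear_combination h4
    rcases mul_eq_zero.1 this with h | h
    · norm_num at h
    · exact h
  by_cases hbot : W = ⊥
  · exact Or.inl hbot
  right
  obtain ⟨x, hx, hx0⟩ := (Submodule.ne_bot_iff W).1 hbot
  by_cases h0 : x 0 = 0
  · by_cases h3 : x 3 = 0
    · by_cases h12 : 2 * x 1 - 3 * x 2 = 0
      · -- apply `B` twice
        have h4 := hB _ hx
        refine key12 _ h4 ?_
        rw [B_1, B_2, h0, h3]
        intro h5
        apply hx0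
        have h6 : (-8 : K) * x 2 = 0 := by linear_combination 2 * h5 - 2 * h12
        have h7 : x 2 = 0 := by
          rcases mul_eq_zero.1 h6 with h | h
          · norm_num at h
          · exact h
        have h8 : x 1 = 0 := by
          rw [h7] at h12
          have : (2 : K) * x 1 = 0 := by linear_combination h12
          simpa using this
        rw [ext4]
        exact ⟨h0, h8, h7, h3⟩
      · exact key12 x hx h12
    · exact key3 x hx h3
  · exact key0 x hx h0

theorem pair : TDPair (A K) (B K) 2 (th K) (th' K) where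
  finite := inferInstance
  nontrivial := inferInstance
  ordA := ordA
  ordB := ordB
  irreducible := irred

/-! ### The map `S` -/

/-- the inverse of `S` -/
theorem S_surj (x : Fin 4 → K) : S K ![x 0, -x 1 - x 2, -x 2, x 3] = x := by
  rw [ext4]
  simp [S_0, S_1, S_2, S_3]

theorem h'_S (x : Fin 4 → K) : h' (S K x) = h x := by
  unfold h h'
  rw [S_0, S_1, S_2, S_3]
  ring

/-- the linear form `h` -/
def hL (K : Type*) [Field K] : (Fin 4 → K) →ₗ[K] K where
  toFun := h
  map_add' x y := by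
    simp only [h, Pi.add_apply]
    ring
  map_smul' c x := by
    simp only [h, Pi.smul_apply, smul_eq_mul, RingHom.id_apply]
    ring

/-- the linear form `h'` -/
def hL' (K : Type*) [Field K] : (Fin 4 → K) →ₗ[K] K where
  toFun := h'
  map_add' x y := by
    simp only [h', Pi.add_apply]
    ring
  map_smul' c x := by
    simp only [h', Pi.smul_apply, smul_eq_mul, RingHom.id_apply]
    ring

/-- `V*_0 + V*_1` -/
theorem up1 (x : Fin 4 → K) : x ∈ (⨆ (j : Fin 3) (_ : (j : ℕ) ≤ 1), (B K).eigenspace (th' K j)) ↔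
    h x = 0 := by
  constructor
  · intro hx
    have : (⨆ (j : Fin 3) (_ : (j : ℕ) ≤ 1), (B K).eigenspace (th' K j)) ≤
        LinearMap.ker (hL K) := by
      refine iSup_le fun j => iSup_le fun hj x hx => ?_
      show h x = 0
      rcases fin3 j with rfl | rfl | rfl
      · obtain ⟨h1, h2, h3⟩ := (mem_B0 x).1 hx
        unfold h
        rw [h1, h2, h3]; ring
      · obtain ⟨h1, h2⟩ := (mem_B1 x).1 hx
        have : (2 : K) * h x = 0 := by unfold h; linear_combination h1 + h2
        simpa using this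
      · exact absurd hj (by decide)
    exact this hx
  · intro hx
    obtain ⟨a, ha, b, hb, c, hc, e, h1, -⟩ := top_B x
    rw [e, h1 hx, add_zero]
    exact Submodule.add_mem _ (mem_of 0 (by decide) ha) (mem_of 1 (by decide) hb)

/-- `V*_1 + V*_2` -/
theorem down1 (x : Fin 4 → K) :
    x ∈ (⨆ (j : Fin 3) (_ : 2 ≤ 1 + (j : ℕ)), (B K).eigenspace (th' K j)) ↔ h' x = 0 := by
  constructor
  · intro hx
    have : (⨆ (j : Fin 3) (_ : 2 ≤ 1 + (j : ℕ)), (B K).eigenspace (th' K j)) ≤
        LinearMap.ker (hL' K) := by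
      refine iSup_le fun j => iSup_le fun hj x hx => ?_
      show h' x = 0
      rcases fin3 j with rfl | rfl | rfl
      · exact absurd hj (by decide)
      · obtain ⟨h1, h2⟩ := (mem_B1 x).1 hx
        have : (2 : K) * h' x = 0 := by unfold h'; linear_combination -h1 + h2
        simpa using this
      · obtain ⟨h1, h2, h3⟩ := (mem_B2 x).1 hx
        unfold h'
        rw [h1, h2, h3]; ring
    exact this hx
  · intro hx
    obtain ⟨a, ha, b, hb, c, hc, e, -, h2⟩ := top_B x
    rw [e, h2 hx, zero_add]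
    exact Submodule.add_mem _ (mem_of 1 (by decide) hb) (mem_of 2 (by decide) hc)

theorem up0 : (⨆ (j : Fin 3) (_ : (j : ℕ) ≤ 0), (B K).eigenspace (th' K j)) =
    (B K).eigenspace (th' K 0) := by
  refine le_antisymm (iSup_le fun j => iSup_le fun hj => ?_) ?_
  · have : j = 0 := Fin.ext (Nat.le_zero.1 hj)
    rw [this]
  · exact fun x hx => mem_of 0 le_rfl hx

theorem down0 : (⨆ (j : Fin 3) (_ : 2 ≤ 0 + (j : ℕ)), (B K).eigenspace (th' K j)) =
    (B K).eigenspace (th' K 2) := by
  refine le_antisymm (iSup_le fun j => iSup_le fun hj => ?_) ?_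
  · have : j = 2 := Fin.ext (by have := j.isLt; show (j : ℕ) = 2; omega)
    rw [this]
  · exact fun x hx => mem_of 2 (by decide) hx

theorem up2 : (⨆ (j : Fin 3) (_ : (j : ℕ) ≤ 2), (B K).eigenspace (th' K j)) = ⊤ := by
  rw [eq_top_iff, ← iSup_B]
  exact iSup_le fun j x hx => mem_of j (by have := j.isLt; omega) hx

theorem down2 : (⨆ (j : Fin 3) (_ : 2 ≤ 2 + (j : ℕ)), (B K).eigenspace (th' K j)) = ⊤ := by
  rw [eq_top_iff, ← iSup_B]
  exact iSup_le fun j x hx => mem_of j (by omega) hx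

theorem admissible : Admissible (A K) (B K) 2 (th K) (th' K) (S K) := by
  have hcom : ∀ x, A K (S K x) = S K (A K x) := by
    intro x
    rw [ext4]
    refine ⟨?_, ?_, ?_, ?_⟩ <;> simp [A_0, A_1, A_2, A_3, S_0, S_1, S_2, S_3]
  have hinj : Function.Injective (S K) := by
    intro x y hxy
    have h0 := congrFun hxy 0
    have h1 := congrFun hxy 1
    have h2 := congrFun hxy 2
    have h3 := congrFun hxy 3
    rw [S_0, S_0] at h0
    rw [S_1, S_1] at h1
    rw [S_2, S_2] at h2
    rw [S_3, S_3] at h3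
    rw [ext4]
    exact ⟨h0, by linear_combination -h1 - h2, by linear_combination -h2, h3⟩
  intro i
  constructor
  · apply le_antisymm
    · rintro _ ⟨x, hx, rfl⟩
      have hx' := Module.End.mem_eigenspace_iff.1 (show x ∈ (A K).eigenspace (th K i) from hx)
      rw [Module.End.mem_eigenspace_iff, hcom, hx', map_smul]
    · intro x hx
      have hx' := Module.End.mem_eigenspace_iff.1 hx
      refine ⟨_, ?_, S_surj x⟩
      show _ ∈ (A K).eigenspace (th K i)
      rw [Module.End.mem_eigenspace_iff]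
      apply hinj
      rw [← hcom, S_surj, hx', map_smul, S_surj]
  · rcases fin3 i with rfl | rfl | rfl
    · show Submodule.map (S K) (⨆ (j : Fin 3) (_ : (j : ℕ) ≤ 0), (B K).eigenspace (th' K j)) =
        (⨆ (j : Fin 3) (_ : 2 ≤ 0 + (j : ℕ)), (B K).eigenspace (th' K j))
      rw [up0, down0]
      apply le_antisymm
      · rintro _ ⟨x, hx, rfl⟩
        obtain ⟨h1, h2, h3⟩ := (mem_B0 x).1 hx
        rw [mem_B2, S_0, S_1, S_2, S_3, h1, h2, h3]
        simp
      · intro x hx
        obtain ⟨h1, h2, h3⟩ := (mem_B2 x).1 hx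
        refine ⟨_, ?_, S_surj x⟩
        show _ ∈ (B K).eigenspace (th' K 0)
        rw [mem_B0]
        simp [h1, h2, h3]
    · show Submodule.map (S K) (⨆ (j : Fin 3) (_ : (j : ℕ) ≤ 1), (B K).eigenspace (th' K j)) =
        (⨆ (j : Fin 3) (_ : 2 ≤ 1 + (j : ℕ)), (B K).eigenspace (th' K j))
      apply le_antisymm
      · rintro _ ⟨x, hx, rfl⟩
        rw [down1, h'_S]
        exact (up1 x).1 hx
      · intro x hx
        refine ⟨_, (up1 _).2 ?_, S_surj x⟩
        rw [← h'_S, S_surj]
        exact (down1 x).1 hx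
    · show Submodule.map (S K) (⨆ (j : Fin 3) (_ : (j : ℕ) ≤ 2), (B K).eigenspace (th' K j)) =
        (⨆ (j : Fin 3) (_ : 2 ≤ 2 + (j : ℕ)), (B K).eigenspace (th' K j))
      rw [up2, down2, eq_top_iff]
      intro x _
      exact ⟨_, Submodule.mem_top, S_surj x⟩

theorem not_diagonalizable : ¬ Diagonalizable (S K) := by
  intro hd
  have hle : (⨆ μ : K, (S K).eigenspace μ) ≤ LinearMap.ker (LinearMap.proj 2 : (Fin 4 → K) →ₗ[K] K) := by
    refine iSup_le fun μ x hx => ?_
    show x 2 = 0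
    have hx' := Module.End.mem_eigenspace_iff.1 hx
    have h1 := congrFun hx' 1
    have h2 := congrFun hx' 2
    rw [S_1, Pi.smul_apply, smul_eq_mul] at h1
    rw [S_2, Pi.smul_apply, smul_eq_mul] at h2
    have h3 : (μ + 1) * x 2 = 0 := by linear_combination -h2
    rcases mul_eq_zero.1 h3 with h4 | h4
    · have h5 : μ = -1 := by linear_combination h4
      rw [h5] at h1
      linear_combination h1
    · exact h4
  rw [show (⨆ μ : K, (S K).eigenspace μ) = ⊤ from hd] at hle
  have := hle (show (![0, 0, 1, 0] : Fin 4 → K) ∈ (⊤ : Submodule K (Fin 4 → K)) from Submodule.mem_top)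
  have h1 : (![0, 0, 1, 0] : Fin 4 → K) 2 = 0 := this
  simp at h1

/-- **The answer to the first part of Q2 is no**, over every field `K` of characteristic zero: there are a
tridiagonal pair `A, B = A*` on a vector space over `K`, with standard orderings `θ`, `θ'` of the
eigenvalues, and an admissible map `S` that is not diagonalizable. -/
theorem result (K : Type) [Field K] [CharZero K] :
    ∃ (V : Type) (_ : AddCommGroup V) (_ : Module K V) (A B : Module.End K V) (d : ℕ)
      (θ θ' : Fin (d + 1) → K), TDPair A B d θ θ' ∧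
      ∃ S : Module.End K V, Admissible A B d θ θ' S ∧ ¬ Diagonalizable S :=
  ⟨Fin 4 → K, inferInstance, inferInstance, A K, B K, 2, th K, th' K, pair, S K, admissible,
    not_diagonalizable⟩

end Pool.Agent.Results.MP_6ebba1_al.NotDiagonalizable
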